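import Pool.Agent.Helper28.D4.Hit
import Pool.Agent.Helper28.D4.Norm
import Pool.Agent.Helper93.D4.M1
import Pool.Agent.Helper93.D4.M2

/-!
# Module W1: the Shpilka-Volkovich type generator is faithful for sums / products of univariates
-/

namespace Pool.Agent.Helper28.VT

open MvPolynomial Finset
open Pool.Agent.Helper28.D4 (G)

/-- Sums of univariates or products of univariates. -/
def Sep {n : ℕ} (A : MvPolynomial (Fin n) ℂ) : Prop :=
  (∃ q : Fin n → Polynomial ℂ, A = ∑ l, Polynomial.aeval (MvPolynomial.X l) (q l)) ∨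
  (∃ q : Fin n → Polynomial ℂ, A = ∏ l, Polynomial.aeval (MvPolynomial.X l) (q l))

/-- The generator, shifted by a diagonal point. -/
noncomputable def Psi (n M : ℕ) :
    MvPolynomial (Fin n) ℂ →ₐ[ℂ] MvPolynomial (Option (Fin M ⊕ Fin M)) ℂ :=
  MvPolynomial.aeval fun l => MvPolynomial.X none +
    Pool.Agent.Helper28.D4.G n M (fun j => MvPolynomial.X (some (Sum.inl j)))
      (fun j => MvPolynomial.X (some (Sum.inr j))) l

/-- The specialisation: variables `e j` are free, the others are set to `a l`. -/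
noncomputable def sp {n t : ℕ} (e : Fin t → Fin n) (a : Fin n → ℂ) :
    MvPolynomial (Fin n) ℂ →ₐ[ℂ] MvPolynomial (Fin t) ℂ := by
  classical
  exact MvPolynomial.aeval fun l => if h : ∃ j, e j = l then X h.choose else C (a l)

lemma sp_X_mem {n t : ℕ} (e : Fin t → Fin n) (he : Function.Injective e) (a : Fin n → ℂ) (j : Fin t) :
    sp e a (X (e j)) = X j := by
  have h : ∃ j', e j' = e j := ⟨j, rfl⟩
  rw [sp, aeval_X, dif_pos h, he h.choose_spec]

lemma sp_X_notMem {n t : ℕ} (e : Fin t → Fin n) (a : Fin n → ℂ) (l : Fin n)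
    (hl : l ∉ Set.range e) : sp e a (X l) = C (a l) := by
  rw [sp, aeval_X, dif_neg (by simpa using hl)]

lemma sp_rename {n t : ℕ} (e : Fin t → Fin n) (he : Function.Injective e) (a : Fin n → ℂ)
    (V : MvPolynomial (Fin t) ℂ) : sp e a (rename e V) = V := by
  have : (sp e a).comp (rename e) = AlgHom.id ℂ _ := by
    apply MvPolynomial.algHom_ext
    intro i
    simp [sp_X_mem e he]
  exact DFunLike.congr_fun this V

/-- chain rule for the specialisation -/
lemma pderiv_sp {n t : ℕ} (e : Fin t → Fin n) (he : Function.Injective e) (a : Fin n → ℂ)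
    (j : Fin t) (f : MvPolynomial (Fin n) ℂ) :
    pderiv j (sp e a f) = sp e a (pderiv (e j) f) := by
  induction f using MvPolynomial.induction_on with
  | C c => simp [MvPolynomial.algHom_C]
  | add p q hp hq => rw [map_add, map_add, map_add, map_add, hp, hq]
  | mul_X p i hp =>
    rw [map_mul, Derivation.leibniz, Derivation.leibniz, hp, map_add, smul_eq_mul, smul_eq_mul,
      smul_eq_mul, smul_eq_mul, map_mul, map_mul]
    congr 2
    by_cases hi : i ∈ Set.range e
    · obtain ⟨k, rfl⟩ := hi
      rw [sp_X_mem e he, pderiv_X, pderiv_X]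
      by_cases hk : k = j
      · subst hk; simp
      · rw [Pi.single_eq_of_ne hk, Pi.single_eq_of_ne (fun h => hk (he h)), map_zero]
    · rw [sp_X_notMem e a i hi, pderiv_C, pderiv_X,
        Pi.single_eq_of_ne (fun h => hi ⟨j, h.symm⟩), map_zero]


lemma pderiv_aeval_X {n : ℕ} (k l : Fin n) (q : Polynomial ℂ) (h : l ≠ k) :
    pderiv k (Polynomial.aeval (X l : MvPolynomial (Fin n) ℂ) q) = 0 := by
  rw [Derivation.map_aeval, pderiv_X, Pi.single_eq_of_ne h, smul_zero]

lemma sp_aeval_X {n t : ℕ} (e : Fin t → Fin n) (a : Fin n → ℂ) (l : Fin n)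
    (hl : l ∉ Set.range e) (q : Polynomial ℂ) :
    sp e a (Polynomial.aeval (X l : MvPolynomial (Fin n) ℂ) q) = C (q.eval (a l)) := by
  rw [← Polynomial.aeval_algHom_apply, sp_X_notMem e a l hl, ← MvPolynomial.algebraMap_eq,
    Polynomial.aeval_algebraMap_apply, Polynomial.coe_aeval_eq_eval]

lemma rename_aeval_X {n t : ℕ} (e : Fin t → Fin n) (j : Fin t) (q : Polynomial ℂ) :
    rename e (Polynomial.aeval (X j : MvPolynomial (Fin t) ℂ) q) =
      Polynomial.aeval (X (e j) : MvPolynomial (Fin n) ℂ) q := by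
  rw [← Polynomial.aeval_algHom_apply, rename_X]

lemma sum_split {n t : ℕ} (e : Fin t → Fin n) (he : Function.Injective e)
    (f : Fin n → MvPolynomial (Fin n) ℂ) [DecidablePred (· ∈ Set.range e)] :
    ∑ l, f l = (∑ l with l ∉ Set.range e, f l) + ∑ j, f (e j) := by
  classical
  rw [← Finset.sum_filter_not_add_sum_filter univ (· ∈ Set.range e)]
  congr 1
  rw [show (univ.filter (· ∈ Set.range e)) = univ.map ⟨e, he⟩ by ext; simp, sum_map]
  rfl

lemma prod_split {n t : ℕ} (e : Fin t → Fin n) (he : Function.Injective e)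
    (f : Fin n → MvPolynomial (Fin n) ℂ) [DecidablePred (· ∈ Set.range e)] :
    ∏ l, f l = (∏ l with l ∉ Set.range e, f l) * ∏ j, f (e j) := by
  classical
  rw [← Finset.prod_filter_not_mul_prod_filter univ (· ∈ Set.range e)]
  congr 1
  rw [show (univ.filter (· ∈ Set.range e)) = univ.map ⟨e, he⟩ by ext; simp, prod_map]
  rfl

/-- Structure of the separable functions with respect to a set of free variables. -/
lemma sep_struct {n t : ℕ} (e : Fin t → Fin n) (he : Function.Injective e)
    (A : MvPolynomial (Fin n) ℂ) (hA : Sep A) (hA0 : A ≠ 0) :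
    ∃ (p : Polynomial ℂ) (W U : MvPolynomial (Fin n) ℂ) (V : MvPolynomial (Fin t) ℂ), p ≠ 0 ∧
      A = W + U * rename e V ∧ (∀ j, pderiv (e j) W = 0) ∧ (∀ j, pderiv (e j) U = 0) ∧
      ∀ a : ℂ, p.eval a ≠ 0 → ∃ u : ℂ, u ≠ 0 ∧ sp e (fun _ => a) U = C u := by
  classical
  rcases hA with ⟨q, rfl⟩ | ⟨q, rfl⟩
  · refine ⟨1, ∑ l with l ∉ Set.range e, Polynomial.aeval (X l) (q l), 1,
      ∑ j, Polynomial.aeval (X j) (q (e j)), one_ne_zero, ?_, ?_, ?_, ?_⟩
    · rw [sum_split e he, one_mul, map_sum]
      simp_rw [rename_aeval_X]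
    · intro j
      rw [map_sum]
      apply sum_eq_zero
      intro l hl
      apply pderiv_aeval_X
      rintro rfl
      simp at hl
      exact hl j rfl
    · intro j
      exact (pderiv (e j)).map_one_eq_zero
    · intro a _
      exact ⟨1, one_ne_zero, by simp⟩
  · have hq : ∀ l, q l ≠ 0 := by
      intro l hl
      apply hA0
      apply Finset.prod_eq_zero (Finset.mem_univ l)
      rw [hl, map_zero]
    refine ⟨∏ l with l ∉ Set.range e, q l, 0, ∏ l with l ∉ Set.range e, Polynomial.aeval (X l) (q l),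
      ∏ j, Polynomial.aeval (X j) (q (e j)), ?_, ?_, ?_, ?_, ?_⟩
    · exact Finset.prod_ne_zero_iff.2 fun l _ => hq l
    · rw [prod_split e he, zero_add, map_prod]
      simp_rw [rename_aeval_X]
    · intro j
      exact map_zero _
    · intro j
      apply Finset.prod_induction _ (fun f => pderiv (e j) f = 0)
      · intro f g hf hg
        rw [Derivation.leibniz, hf, hg, smul_zero, smul_zero, add_zero]
      · exact (pderiv (e j)).map_one_eq_zero
      · intro l hl
        apply pderiv_aeval_X
        rintro rfl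
        simp at hl
        exact hl j rfl
    · intro a ha
      refine ⟨∏ l with l ∉ Set.range e, (q l).eval a, ?_, ?_⟩
      · rwa [Polynomial.eval_prod] at ha
      · rw [map_prod, map_prod]
        apply prod_congr rfl
        intro l hl
        rw [sp_aeval_X e _ l (by simpa using hl)]


/-- Faithfulness of the specialisation for a suitable value. -/
lemma exists_spec {n t : ℕ} (c : Fin t → MvPolynomial (Fin n) ℂ) (hc : ∀ j, Sep (c j))
    (hi : AlgebraicIndependent ℂ c) :
    ∃ (e : Fin t → Fin n) (_ : Function.Injective e) (a : ℂ),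
      AlgebraicIndependent ℂ (fun i => sp e (fun _ => a) (c i)) := by
  classical
  obtain ⟨e, hdet⟩ := Pool.Agent.Helper93.D4.jac_of_algInd c hi
  have he : Function.Injective e := by
    intro j k hjk
    by_contra hne
    apply hdet
    apply Matrix.det_zero_of_column_eq hne
    intro i
    simp [hjk]
  have hst := fun i => sep_struct e he (c i) (hc i) (hi.ne_zero i)
  choose p W U V hp hA hW hU hu using hst
  obtain ⟨a, ha⟩ : ∃ a : ℂ, (∏ i, p i).eval a ≠ 0 := by
    by_contra hcon
    push Not at hcon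
    exact (Finset.prod_ne_zero_iff.2 fun i _ => hp i) (Polynomial.funext (fun a => by simpa using hcon a))
  rw [Polynomial.eval_prod, Finset.prod_ne_zero_iff] at ha
  have hu' := fun i => hu i a (ha i (mem_univ i))
  choose u hu0 hu1 using hu'
  refine ⟨e, he, a, ?_⟩
  have hpd : ∀ i j, pderiv (e j) (c i) = U i * rename e (pderiv j (V i)) := by
    intro i j
    rw [hA i, map_add, hW, zero_add, Derivation.leibniz, hU, smul_zero, add_zero, smul_eq_mul,
      pderiv_rename he]
  have hD : (Matrix.of fun i j => pderiv j (V i)).det ≠ 0 := by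
    intro h0
    apply hdet
    have : (Matrix.of fun i j => pderiv (e j) (c i)) =
        Matrix.of fun i j => U i * (rename e).toRingHom.mapMatrix (Matrix.of fun i j => pderiv j (V i)) i j := by
      ext1 i j
      simp [hpd]
    rw [this, Matrix.det_mul_column, ← RingHom.map_det, h0, map_zero, mul_zero]
  apply Pool.Agent.Helper93.D4.algInd_of_jac
  have : (Matrix.of fun i j => pderiv j (sp e (fun _ => a) (c i))) =
        Matrix.of fun i j => (C (u i)) * (Matrix.of fun i j => pderiv j (V i)) i j := by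
    ext1 i j
    simp only [Matrix.of_apply]
    rw [pderiv_sp e he, hpd, map_mul, hu1, sp_rename e he]
  rw [this, Matrix.det_mul_column]
  exact mul_ne_zero (Finset.prod_ne_zero_iff.2 fun i _ => (by simpa using hu0 i)) hD


/-- Product of the differences at node `l`. -/
noncomputable def kap (n : ℕ) (l : Fin n) : ℂ :=
  ∏ i' ∈ Finset.univ.erase l, (((l : ℕ) : ℂ) - ((i' : ℕ) : ℂ))

lemma kap_ne (n : ℕ) (l : Fin n) : kap n l ≠ 0 := by
  rw [kap, Finset.prod_ne_zero_iff]
  intro i hi h
  rw [sub_eq_zero] at h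
  have := Nat.cast_injective h
  exact (Finset.mem_erase.1 hi).1 (Fin.ext this.symm)

/-- specialisation of the parameters of the generator -/
noncomputable def chi {n M t : ℕ} (e : Fin t → Fin n) (a : ℂ) :
    MvPolynomial (Option (Fin M ⊕ Fin M)) ℂ →ₐ[ℂ] MvPolynomial (Fin t) ℂ :=
  MvPolynomial.aeval fun o => match o with
    | none => C a
    | some (Sum.inl j) =>
        if h : (j : ℕ) < t then C (kap n (e ⟨j, h⟩))⁻¹ * (X ⟨j, h⟩ - C a) else 0
    | some (Sum.inr j) => if h : (j : ℕ) < t then C (((e ⟨j, h⟩ : Fin n) : ℕ) : ℂ) else 0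

lemma chi_Psi_X {n M t : ℕ} (ht : t ≤ M) (e : Fin t → Fin n) (he : Function.Injective e) (a : ℂ)
    (l : Fin n) : chi (M := M) e a (Psi n M (X l)) = sp e (fun _ => a) (X l) := by
  classical
  have hX : Psi n M (X l) = MvPolynomial.X none +
    Pool.Agent.Helper28.D4.G n M (fun j => MvPolynomial.X (some (Sum.inl j)))
      (fun j => MvPolynomial.X (some (Sum.inr j))) l := by rw [Psi, aeval_X]
  rw [hX, map_add]
  have h1 := Pool.Agent.Helper28.D4.map_G (chi (M := M) e a).toRingHom
    (fun j : Fin M => MvPolynomial.X (some (Sum.inl j))) (fun j => MvPolynomial.X (some (Sum.inr j))) l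
  simp only [AlgHom.toRingHom_eq_coe, RingHom.coe_coe] at h1
  rw [h1]
  have h2 : chi (M := M) e a (X none) = C a := by rw [chi, aeval_X]
  have h3 : ∀ j : Fin M, chi (M := M) e a (X (some (Sum.inl j))) =
      if h : (j : ℕ) < t then C (kap n (e ⟨j, h⟩))⁻¹ * (X ⟨j, h⟩ - C a) else 0 := by
    intro j; rw [chi, aeval_X]
  have h4 : ∀ j : Fin M, chi (M := M) e a (X (some (Sum.inr j))) =
      if h : (j : ℕ) < t then C (((e ⟨j, h⟩ : Fin n) : ℕ) : ℂ) else 0 := by
    intro j; rw [chi, aeval_X]
  rw [h2, G]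
  simp_rw [h3, h4]
  -- the product
  have hprod : ∀ j : Fin t, (∏ i' ∈ Finset.univ.erase l,
      ((C (((e j : Fin n) : ℕ) : ℂ) : MvPolynomial (Fin t) ℂ) - (((i' : Fin n) : ℕ) : MvPolynomial (Fin t) ℂ))) =
      if e j = l then C (kap n l) else 0 := by
    intro j
    split_ifs with h
    · rw [kap, map_prod]
      apply prod_congr rfl
      intro i _
      rw [h, map_sub, map_natCast, map_natCast]
    · apply Finset.prod_eq_zero (i := e j)
      · exact Finset.mem_erase.2 ⟨h, mem_univ _⟩
      · rw [map_natCast, sub_self]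
  have hterm : ∀ j : Fin M, (if h : (j : ℕ) < t then C (kap n (e ⟨j, h⟩))⁻¹ * (X ⟨j, h⟩ - C a) else 0) *
      ∏ i' ∈ Finset.univ.erase l, ((if h : (j : ℕ) < t then C (((e ⟨j, h⟩ : Fin n) : ℕ) : ℂ) else 0) -
        (((i' : Fin n) : ℕ) : MvPolynomial (Fin t) ℂ)) =
      if h : (j : ℕ) < t then (if e ⟨j, h⟩ = l then X ⟨j, h⟩ - C a else 0) else 0 := by
    intro j
    by_cases h : (j : ℕ) < t
    · simp only [dif_pos h]
      rw [hprod ⟨j, h⟩]
      split_ifs with h'
      · rw [h', mul_comm (C (kap n l)⁻¹), mul_assoc, ← C_mul, inv_mul_cancel₀ (kap_ne n l), C_1, mul_one]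
      · rw [mul_zero]
    · simp only [dif_neg h, zero_mul]
  rw [Finset.sum_congr rfl (fun j _ => hterm j)]
  by_cases hl : l ∈ Set.range e
  · obtain ⟨k, rfl⟩ := hl
    rw [sp_X_mem e he, Finset.sum_eq_single (⟨k, by omega⟩ : Fin M)]
    · simp
    · intro j _ hj
      split_ifs with h h'
      · exfalso
        apply hj
        have := he h'
        rw [← this]
      · rfl
      · rfl
    · intro h; exact absurd (mem_univ _) h
  · rw [sp_X_notMem e _ l hl, Finset.sum_eq_zero, add_zero]
    intro j _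
    split_ifs with h h'
    · exact absurd ⟨_, h'⟩ hl
    · rfl
    · rfl

lemma chi_Psi {n M t : ℕ} (ht : t ≤ M) (e : Fin t → Fin n) (he : Function.Injective e) (a : ℂ)
    (f : MvPolynomial (Fin n) ℂ) : chi (M := M) e a (Psi n M f) = sp e (fun _ => a) f := by
  have : (chi (M := M) e a).comp (Psi n M) = sp e (fun _ => a) := by
    apply MvPolynomial.algHom_ext
    intro l
    exact chi_Psi_X ht e he a l
  exact DFunLike.congr_fun this f

/-- The generator maps algebraically independent separable functions to algebraically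
independent ones. -/
theorem sep_algInd {n M t : ℕ} (ht : t ≤ M) (c : Fin t → MvPolynomial (Fin n) ℂ)
    (hc : ∀ j, Sep (c j)) (hi : AlgebraicIndependent ℂ c) :
    AlgebraicIndependent ℂ (fun i => Psi n M (c i)) := by
  obtain ⟨e, he, a, h⟩ := exists_spec c hc hi
  rw [algebraicIndependent_iff]
  intro F hF
  rw [algebraicIndependent_iff] at h
  apply h
  have h1 := congrArg (chi (M := M) e a) hF
  rw [map_zero, comp_aeval_apply] at h1
  simp_rw [chi_Psi ht e he a] at h1
  exact h1

/-- **Module W1.** The generator is faithful for `M` separable functions. -/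
theorem sep_faithful (n M : ℕ) (c : Fin M → MvPolynomial (Fin n) ℂ) (hc : ∀ j, Sep (c j))
    (H : MvPolynomial (Fin M) ℂ) (h : MvPolynomial.aeval c H ≠ 0) :
    Psi n M (MvPolynomial.aeval c H) ≠ 0 := by
  obtain ⟨t, ht, s, hs, B, g, hB, hBg⟩ := Pool.Agent.Helper28.D4.norm_trick (r := M) c (by
    intro s hs
    have : Function.Injective s := fun i j hij => hs.injective (by simp [hij])
    have := Fintype.card_le_of_injective s this
    simp at this) H h
  intro h0
  have h1 := congrArg (Psi n M) hBg
  rw [map_mul, h0, zero_mul, comp_aeval_apply] at h1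
  have h2 := sep_algInd ht (fun i => c (s i)) (fun i => hc (s i)) hs
  rw [algebraicIndependent_iff] at h2
  exact hB (h2 B h1)

end Pool.Agent.Helper28.VT
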